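import Pool.Agent.Work.MP_c03b66_an.Bd.B01

/-! Integer facts for the example behind `FlatPolynomials`: digits in base `B²`, the letters
`xi k`, `eta l` in `Z^n`, `n ≥ 4`. -/

open MeasureTheory UnitAddTorus

namespace MP_c03b66_an

noncomputable section

/-- The frequencies with nonnegative coordinates. -/
def Pos (n : ℕ) : Set (Fin n → ℤ) := {k | ∀ i, 0 ≤ k i}

/-- `x_k = e_{xi k}`, i.e. `(z₁z₂)^(B Q^k) (z₃z₄)^(B Q^(L-1-k))`, `Q = B²`. -/
def xi (n L B : ℕ) (k : ℕ) : Fin n → ℤ := fun i =>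
  if i.val < 2 then (B : ℤ) * ((B : ℤ) ^ 2) ^ k
  else if i.val < 4 then (B : ℤ) * ((B : ℤ) ^ 2) ^ (L - 1 - k) else 0

/-- `u_l = e_{eta l}`, i.e. `(z₁/z₂)^(Q^l) (z₃/z₄)^(Q^(L-1-l))`, `Q = B²`. -/
def eta (n L B : ℕ) (l : ℕ) : Fin n → ℤ := fun i =>
  if i.val = 0 then ((B : ℤ) ^ 2) ^ l
  else if i.val = 1 then -((B : ℤ) ^ 2) ^ l
  else if i.val = 2 then ((B : ℤ) ^ 2) ^ (L - 1 - l)
  else if i.val = 3 then -((B : ℤ) ^ 2) ^ (L - 1 - l) else 0

lemma dig_bd {D B : ℕ} (hB : D + 3 ≤ B) (m : ℕ → ℤ) (L : ℕ) (hm : ∀ l < L, |m l| ≤ D) :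
    |∑ l ∈ Finset.range L, m l * ((B : ℤ) ^ 2) ^ l| * B ≤ ((B : ℤ) ^ 2) ^ L := by
  induction L with
  | zero => simp
  | succ L ih =>
    have h1 := ih (fun l hl => hm l (by omega))
    have h2 := hm L (by omega)
    rw [Finset.sum_range_succ]
    have hB' : (D : ℤ) + 3 ≤ B := by exact_mod_cast hB
    have hD0 : (0 : ℤ) ≤ D := by positivity
    have hB0 : (0 : ℤ) ≤ B := by positivity
    have hQ : (0 : ℤ) < ((B : ℤ) ^ 2) ^ L := by
      have : (0 : ℤ) < B := by linarith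
      positivity
    calc |∑ l ∈ Finset.range L, m l * ((B : ℤ) ^ 2) ^ l + m L * ((B : ℤ) ^ 2) ^ L| * B
        ≤ (|∑ l ∈ Finset.range L, m l * ((B : ℤ) ^ 2) ^ l| + |m L * ((B : ℤ) ^ 2) ^ L|) * B :=
          mul_le_mul_of_nonneg_right (abs_add_le _ _) hB0
      _ = |∑ l ∈ Finset.range L, m l * ((B : ℤ) ^ 2) ^ l| * B + |m L| * B * ((B : ℤ) ^ 2) ^ L := by
          rw [abs_mul, abs_of_pos hQ]; ring
      _ ≤ ((B : ℤ) ^ 2) ^ L + D * B * ((B : ℤ) ^ 2) ^ L := by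
          refine add_le_add h1 ?_
          exact mul_le_mul_of_nonneg_right (mul_le_mul_of_nonneg_right h2 hB0) hQ.le
      _ = (1 + D * B) * ((B : ℤ) ^ 2) ^ L := by ring
      _ ≤ (B : ℤ) ^ 2 * ((B : ℤ) ^ 2) ^ L := by
          refine mul_le_mul_of_nonneg_right ?_ hQ.le
          nlinarith
      _ = ((B : ℤ) ^ 2) ^ (L + 1) := by ring

lemma dig {D B k : ℕ} (hB : D + 3 ≤ B) (m : ℕ → ℤ) (L : ℕ) (hm : ∀ l < L, |m l| ≤ D)
    (h : |∑ l ∈ Finset.range L, m l * ((B : ℤ) ^ 2) ^ l| ≤ B * ((B : ℤ) ^ 2) ^ k) :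
    ∀ l < L, k < l → m l = 0 := by
  induction L with
  | zero => intro l hl; omega
  | succ L ih =>
    intro l hl hkl
    have hbd := dig_bd hB m L (fun l hl => hm l (by omega))
    have hB' : (D : ℤ) + 3 ≤ B := by exact_mod_cast hB
    have hD0 : (0 : ℤ) ≤ D := by positivity
    have hB0 : (0 : ℤ) < B := by linarith
    have hkL : k < L := by omega
    have hQ : (0 : ℤ) < ((B : ℤ) ^ 2) ^ L := by positivity
    have hQk : ((B : ℤ) ^ 2) ^ (k + 1) ≤ ((B : ℤ) ^ 2) ^ L :=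
      pow_le_pow_right₀ (by nlinarith) (by omega)
    have hL : m L = 0 := by
      by_contra hne
      have h1 : (1 : ℤ) ≤ |m L| := Int.one_le_abs hne
      rw [Finset.sum_range_succ] at h
      have h2 : |m L * ((B : ℤ) ^ 2) ^ L| ≤
          |∑ l ∈ Finset.range L, m l * ((B : ℤ) ^ 2) ^ l + m L * ((B : ℤ) ^ 2) ^ L| +
          |∑ l ∈ Finset.range L, m l * ((B : ℤ) ^ 2) ^ l| := by
        have := abs_sub (∑ l ∈ Finset.range L, m l * ((B : ℤ) ^ 2) ^ l + m L * ((B : ℤ) ^ 2) ^ L)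
          (∑ l ∈ Finset.range L, m l * ((B : ℤ) ^ 2) ^ l)
        simpa using this
      rw [abs_mul, abs_of_pos hQ] at h2
      have h3 : |m L| * ((B : ℤ) ^ 2) ^ L * B ≤
          (B * ((B : ℤ) ^ 2) ^ k) * B + ((B : ℤ) ^ 2) ^ L := by nlinarith
      have h4 : (B * ((B : ℤ) ^ 2) ^ k) * B = ((B : ℤ) ^ 2) ^ (k + 1) := by ring
      rw [h4] at h3
      have h5 : 1 * (((B : ℤ) ^ 2) ^ L * B) ≤ |m L| * (((B : ℤ) ^ 2) ^ L * B) :=
        mul_le_mul_of_nonneg_right h1 (by positivity)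
      nlinarith
    rcases Nat.lt_or_ge l L with h1 | h1
    · refine ih (fun l hl => hm l (by omega)) ?_ l h1 hkl
      rw [Finset.sum_range_succ, hL] at h
      simpa using h
    · have : l = L := by omega
      rw [this]; exact hL

lemma dig0 {D B : ℕ} (hB : D + 3 ≤ B) (m : ℕ → ℤ) (L : ℕ) (hm : ∀ l < L, |m l| ≤ D)
    (h : ∑ l ∈ Finset.range L, m l * ((B : ℤ) ^ 2) ^ l = 0) : ∀ l < L, m l = 0 := by
  intro l hl
  have h1 := dig (k := 0) hB m L hm (by rw [h]; simp)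
  rcases Nat.eq_zero_or_pos l with h0 | h0
  · subst h0
    have h2 : ∑ l ∈ Finset.range L, m l * ((B : ℤ) ^ 2) ^ l = m 0 := by
      rw [Finset.sum_eq_single 0]
      · simp
      · intro b hb hb0
        rw [h1 b (Finset.mem_range.1 hb) (by omega)]; simp
      · intro h; exact absurd (Finset.mem_range.2 hl) h
    rw [← h2]; exact h
  · exact h1 l hl h0

lemma word_zero {n L B D : ℕ} (hn : 4 ≤ n) (hB : D + 3 ≤ B) (d m : ℕ → ℤ)
    (hd : ∀ l < L, |d l| ≤ D) (hm : ∀ l < L, |m l| ≤ D)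
    (h : ∑ l ∈ Finset.range L, d l • xi n L B l + ∑ l ∈ Finset.range L, m l • eta n L B l = 0) :
    ∀ l < L, d l = 0 ∧ m l = 0 := by
  have hB0 : (0 : ℤ) < B := by
    have : (D : ℤ) + 3 ≤ B := by exact_mod_cast hB
    have : (0 : ℤ) ≤ D := by positivity
    linarith
  have h0 := congrFun h (⟨0, by omega⟩ : Fin n)
  have h1 := congrFun h (⟨1, by omega⟩ : Fin n)
  simp only [Pi.add_apply, Finset.sum_apply, Pi.smul_apply, xi, eta, Pi.zero_apply, smul_eq_mul]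
    at h0 h1
  norm_num at h0 h1
  have e1 : ∑ l ∈ Finset.range L, d l * ((B : ℤ) * ((B : ℤ) ^ 2) ^ l) =
      B * ∑ l ∈ Finset.range L, d l * ((B : ℤ) ^ 2) ^ l := by
    rw [Finset.mul_sum]; exact Finset.sum_congr rfl fun _ _ => by ring
  rw [e1] at h0 h1
  have hm0 : ∑ l ∈ Finset.range L, m l * ((B : ℤ) ^ 2) ^ l = 0 := by linarith
  have hd0 : (B : ℤ) * ∑ l ∈ Finset.range L, d l * ((B : ℤ) ^ 2) ^ l = 0 := by linarith
  have hd1 : ∑ l ∈ Finset.range L, d l * ((B : ℤ) ^ 2) ^ l = 0 := by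
    rcases mul_eq_zero.1 hd0 with h | h
    · exact absurd h hB0.ne'
    · exact h
  intro l hl
  exact ⟨dig0 hB d L hd hd1 l hl, dig0 hB m L hm hm0 l hl⟩

lemma word_pos {n L B D k : ℕ} (hn : 4 ≤ n) (hB : D + 3 ≤ B) (hk : k < L) (m : ℕ → ℤ)
    (hm : ∀ l < L, |m l| ≤ D)
    (h : xi n L B k + ∑ l ∈ Finset.range L, m l • eta n L B l ∈ Pos n) :
    ∀ l < L, l ≠ k → m l = 0 := by
  have h0 := h (⟨0, by omega⟩ : Fin n)
  have h1 := h (⟨1, by omega⟩ : Fin n)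
  have h2 := h (⟨2, by omega⟩ : Fin n)
  have h3 := h (⟨3, by omega⟩ : Fin n)
  simp only [Pi.add_apply, Finset.sum_apply, Pi.smul_apply, xi, eta, smul_eq_mul]
    at h0 h1 h2 h3
  norm_num at h0 h1 h2 h3
  have hA : |∑ l ∈ Finset.range L, m l * ((B : ℤ) ^ 2) ^ l| ≤ B * ((B : ℤ) ^ 2) ^ k := by
    rw [abs_le]; constructor <;> linarith
  have hC : |∑ l ∈ Finset.range L, m l * ((B : ℤ) ^ 2) ^ (L - 1 - l)| ≤
      B * ((B : ℤ) ^ 2) ^ (L - 1 - k) := by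
    rw [abs_le]; constructor <;> linarith
  have hC' : ∑ l ∈ Finset.range L, m l * ((B : ℤ) ^ 2) ^ (L - 1 - l) =
      ∑ j ∈ Finset.range L, m (L - 1 - j) * ((B : ℤ) ^ 2) ^ j := by
    rw [← Finset.sum_range_reflect]
    refine Finset.sum_congr rfl fun j hj => ?_
    have : j < L := Finset.mem_range.1 hj
    rw [show L - 1 - (L - 1 - j) = j by omega]
  rw [hC'] at hC
  have hA1 := dig hB m L hm hA
  have hC1 := dig hB (fun j => m (L - 1 - j)) L (fun l hl => hm _ (by omega)) hC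
  intro l hl hlk
  rcases lt_or_gt_of_ne hlk with h4 | h4
  · have := hC1 (L - 1 - l) (by omega) (by omega)
    simpa [show L - 1 - (L - 1 - l) = l by omega] using this
  · exact hA1 l hl h4

lemma word_mem_pos {n L B k : ℕ} (m : ℤ) (hm : |m| ≤ B) :
    xi n L B k + m • eta n L B k ∈ Pos n := by
  intro i
  simp only [Pi.add_apply, Pi.smul_apply, xi, eta, smul_eq_mul]
  have hB : (0 : ℤ) ≤ B := by positivity
  have h1 := abs_le.1 hm
  have key : ∀ j : ℕ, 0 ≤ (B : ℤ) * ((B : ℤ) ^ 2) ^ j + m * ((B : ℤ) ^ 2) ^ j := by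
    intro j
    have : 0 ≤ ((B : ℤ) + m) * ((B : ℤ) ^ 2) ^ j := mul_nonneg (by linarith) (by positivity)
    linarith
  have key2 : ∀ j : ℕ, 0 ≤ (B : ℤ) * ((B : ℤ) ^ 2) ^ j + m * -((B : ℤ) ^ 2) ^ j := by
    intro j
    have : 0 ≤ ((B : ℤ) - m) * ((B : ℤ) ^ 2) ^ j := mul_nonneg (by linarith) (by positivity)
    linarith
  by_cases h0 : i.val = 0
  · simp [h0]; exact key k
  · by_cases h1 : i.val = 1
    · simp [h1]; have := key2 k; linarith
    · by_cases h2 : i.val = 2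
      · simp [h2]; exact key _
      · by_cases h3 : i.val = 3
        · simp [h3]; have := key2 (L - 1 - k); linarith
        · have : ¬ i.val < 2 := by omega
          have : ¬ i.val < 4 := by omega
          simp [*]

end

end MP_c03b66_an
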