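import Pool.Agent.Work.MP_c03b66_an.FP.KC

/-! Final form of the flat polynomials. -/

open MeasureTheory UnitAddTorus
open scoped ENNReal NNReal

namespace MP_c03b66_an

noncomputable section

/-- pairing of a continuous function with a trigonometric polynomial -/
lemma pair_tp {n : ℕ} (f : C(Tor n, ℂ)) (S : Finset (Fin n → ℤ)) (c : (Fin n → ℤ) → ℂ) :
    ∫ x, f x * star (tp S c x) ∂haar n = ∑ k ∈ S, star (c k) * fc f k := by
  have h1 : ∀ x, f x * star (tp S c x) = ∑ k ∈ S, star (c k) * (mFourier (-k) x * f x) := by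
    intro x
    rw [tp_apply S c x, star_sum, Finset.mul_sum]
    refine Finset.sum_congr rfl fun k _ => ?_
    rw [star_mul, mF_neg]; ring
  simp_rw [h1]
  rw [integral_finsetSum _ (fun k _ => cont_int (by fun_prop))]
  exact Finset.sum_congr rfl fun k _ => by rw [integral_const_mul]; rfl

lemma pair_interp {n : ℕ} {A : Set (Fin n → ℤ)} {p : C(Tor n, ℂ)} (hp : p ∈ H A) (f : C(Tor n, ℂ))
    (h : ∀ k, fc p k ≠ 0 → fc f k = fc p k) :
    ∫ x, f x * star (p x) ∂haar n = ((∫ x, ‖p x‖ ^ 2 ∂haar n : ℝ) : ℂ) := by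
  obtain ⟨S, c, hS, rfl⟩ := mem_H_iff.1 hp
  rw [pair_tp, parseval_tp]
  push_cast
  refine Finset.sum_congr rfl fun k hk => ?_
  have h1 : fc (tp S c) k = c k := by rw [fc_tp, if_pos hk]
  by_cases h0 : c k = 0
  · simp [h0]
  · rw [h k (by rw [h1]; exact h0), h1]
    have h3 := Complex.mul_conj (c k)
    rw [Complex.normSq_eq_norm_sq] at h3
    rw [mul_comm]
    simpa using h3

theorem flat_final (n : ℕ) (hn : 4 ≤ n) (m : ℕ) (ε : ℝ) (hε : 0 < ε) :
    ∃ p ∈ H (Pos n), ∃ F ∈ H (Set.univ : Set (Fin n → ℤ)),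
      (∀ k ∈ Pos n, fc F k = fc p k) ∧
      ∫ x, ‖F x‖ ∂haar n ≤ ε ∧
      ∫ x, ‖p x‖ ^ 2 ∂haar n = 1 ∧
      1 ≤ 2 * ∫ x, ‖p x‖ ∂haar n ∧
      (∀ j ≤ m, ∫ x, ‖p x‖ ^ (2 * j) ∂haar n ≤ 2 * j.factorial) ∧
      (∀ f : C(Tor n, ℂ), InPolydiscAlgebra f →
        ‖∫ x, f x * star (p x) ∂haar n‖ ≤ ε * ‖f‖) ∧
      (∀ f : C(Tor n, ℂ), InPolydiscAlgebra f → (∀ k, fc p k ≠ 0 → fc f k = fc p k) →
        1 ≤ ε * ‖f‖) := by
  obtain ⟨p, hp, F, hF, hFp, hp2, hpm, hF1⟩ := exists_flat hn (m + 2) ε hε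
  have hpair : ∀ f : C(Tor n, ℂ), InPolydiscAlgebra f →
      ‖∫ x, f x * star (p x) ∂haar n‖ ≤ ε * ‖f‖ := by
    intro f hf
    have h1 := pairing (f := f) (MemLp.of_bound f.continuous.aestronglyMeasurable ‖f‖
      (Filter.Eventually.of_forall fun x => f.norm_coe_le_norm x)) (analytic_of_polydisc hf) hFp
      (Filter.Eventually.of_forall fun x => f.norm_coe_le_norm x)
    refine h1.trans ?_
    rw [mul_comm ε]
    exact mul_le_mul_of_nonneg_left hF1 (norm_nonneg _)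
  refine ⟨p, hp, F, hF, ?_, hF1, hp2, ?_, fun j hj => hpm j (by omega), hpair, ?_⟩
  · intro k hk
    have h1 := fc_of_mem_H hFp (k := k) (by simpa using hk)
    have h2 : fc (F - p : C(Tor n, ℂ)) k = fc F k - fc p k := by
      rw [← fcL_apply, map_sub, fcL_apply, fcL_apply]
    rw [h2] at h1
    exact sub_eq_zero.1 h1
  · have h4 : ∫ x, ‖p x‖ ^ 4 ∂haar n ≤ 4 := by
      have := hpm 2 (by omega)
      norm_num at this
      linarith
    have h1 : ∫ x, ‖p x‖ ^ 2 ∂haar n ≤ ∫ x, ((4 / 3) * ‖p x‖ + (1 / 12) * ‖p x‖ ^ 4) ∂haar n := by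
      refine integral_mono (cont_int (by fun_prop)) (cont_int (by fun_prop)) fun x => ?_
      have hy := norm_nonneg (p x)
      simp only
      nlinarith [mul_nonneg hy (mul_nonneg (sq_nonneg (‖p x‖ - 2)) (by linarith : 0 ≤ ‖p x‖ + 4))]
    rw [integral_add (cont_int (by fun_prop)) (cont_int (by fun_prop)), integral_const_mul,
      integral_const_mul, hp2] at h1
    linarith
  · intro f hf h
    have h1 := hpair f hf
    rw [pair_interp hp f h, hp2] at h1
    simpa using h1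

end

end MP_c03b66_an
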