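import Pool.Agent.Work.MP_c03b66_an.Bd.B06

/-! Pairing of bounded analytic functions with `p`, and failure of K-closedness. -/

open MeasureTheory UnitAddTorus
open scoped ENNReal NNReal

namespace MP_c03b66_an

noncomputable section

/-- The couple `(H^r(T^n), H^∞(T^n))` is K-closed in `(L^r(T^n), L^∞(T^n))`: whenever
`g ∈ L^r`, `h ∈ L^∞` and `g + h` has spectrum in `Z_+^n`, there are `g' ∈ H^r`, `h' ∈ H^∞` with
`g' + h' = g + h` a.e., `‖g'‖_r ≤ C ‖g‖_r` and `‖h'‖_∞ ≤ C ‖h‖_∞`. -/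
def KClosed (n : ℕ) (r : ℝ≥0∞) : Prop :=
  ∃ C : ℝ≥0, ∀ g h : Tor n → ℂ, MemLp g r (haar n) → MemLp h ⊤ (haar n) → Analytic (g + h) →
    ∃ g' h' : Tor n → ℂ, MemLp g' r (haar n) ∧ MemLp h' ⊤ (haar n) ∧
      Analytic g' ∧ Analytic h' ∧ g' + h' =ᵐ[haar n] g + h ∧
      eLpNorm g' r (haar n) ≤ C * eLpNorm g r (haar n) ∧
      eLpNorm h' ⊤ (haar n) ≤ C * eLpNorm h ⊤ (haar n)

lemma int_mul_cont {n : ℕ} {f : Tor n → ℂ} (hf : Integrable f (haar n)) (q : C(Tor n, ℂ)) :
    Integrable (fun x => f x * star (q x)) (haar n) := by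
  refine hf.mul_bdd (c := ‖q‖) (by
    exact (Continuous.star q.continuous).aestronglyMeasurable) (Filter.Eventually.of_forall fun x => ?_)
  rw [norm_star]; exact q.norm_coe_le_norm x

lemma pair_zero {n : ℕ} {f : Tor n → ℂ} (hf : Integrable f (haar n)) (hA : Analytic f)
    {q : C(Tor n, ℂ)} (hq : q ∈ H (Pos n)ᶜ) : ∫ x, f x * star (q x) ∂haar n = 0 := by
  induction hq using Submodule.span_induction with
  | mem x hx =>
    obtain ⟨k, hk, rfl⟩ := hx
    have := hA k hk
    rw [fc_eq] at this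
    rw [← this]
    refine integral_congr_ae (Filter.Eventually.of_forall fun x => ?_)
    simp only
    rw [mF_neg, mul_comm]
  | zero => simp
  | add y z _ _ hy hz =>
    have h1 : ∀ x, f x * star ((y + z) x) = f x * star (y x) + f x * star (z x) := fun x => by
      rw [ContinuousMap.add_apply, star_add, mul_add]
    simp_rw [h1]
    rw [integral_add (int_mul_cont hf y) (int_mul_cont hf z), hy, hz, add_zero]
  | smul a y _ hy =>
    have h1 : ∀ x, f x * star ((a • y) x) = star a * (f x * star (y x)) := fun x => by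
      rw [ContinuousMap.smul_apply, smul_eq_mul, star_mul]; ring
    simp_rw [h1]
    rw [integral_const_mul, hy, mul_zero]

lemma pairing {n : ℕ} {f : Tor n → ℂ} (hf : MemLp f ⊤ (haar n)) (hA : Analytic f)
    {p F : C(Tor n, ℂ)} (hFp : F - p ∈ H (Pos n)ᶜ) {c : ℝ} (hc : ∀ᵐ x ∂haar n, ‖f x‖ ≤ c) :
    ‖∫ x, f x * star (p x) ∂haar n‖ ≤ c * ∫ x, ‖F x‖ ∂haar n := by
  have hfi : Integrable f (haar n) := hf.integrable le_top
  have h1 := pair_zero hfi hA hFp
  have h2 : ∫ x, f x * star (p x) ∂haar n = ∫ x, f x * star (F x) ∂haar n := by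
    have h3 : ∀ x, f x * star ((F - p) x) = f x * star (F x) - f x * star (p x) := fun x => by
      rw [ContinuousMap.sub_apply, star_sub, mul_sub]
    simp_rw [h3] at h1
    rw [integral_sub (int_mul_cont hfi F) (int_mul_cont hfi p)] at h1
    exact (sub_eq_zero.1 h1).symm
  rw [h2, ← integral_const_mul]
  refine (norm_integral_le_integral_norm _).trans ?_
  refine integral_mono_ae (int_mul_cont hfi F).norm
    ((cont_int F.continuous.norm).const_mul c) ?_
  filter_upwards [hc] with x hx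
  rw [norm_mul, norm_star]
  exact mul_le_mul_of_nonneg_right hx (norm_nonneg _)

/-- pointwise inequality used to pair `g'` with `p` -/
lemma young_aux (R c y t : ℝ) (hR : 1 ≤ R) (hc : 0 ≤ c) (hy : 0 ≤ y) (ht : 0 ≤ t)
    (hyt : y ≤ t + c * R ^ 2) : y * t ≤ R * y + (t ^ 4 * (1 / R ^ 2) + t ^ 4 * (c / R)) := by
  have hR0 : 0 < R := by linarith
  rcases le_or_gt t R with h | h
  · have h1 : y * t ≤ R * y := by nlinarith
    have h2 : 0 ≤ t ^ 4 * (1 / R ^ 2) + t ^ 4 * (c / R) := by positivity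
    linarith
  · have h1 : y * t ≤ (t + c * R ^ 2) * t := mul_le_mul_of_nonneg_right hyt ht
    have h2 : t * t ≤ t ^ 4 * (1 / R ^ 2) := by
      rw [mul_one_div, le_div_iff₀ (by positivity)]
      have : R ^ 2 ≤ t ^ 2 := pow_le_pow_left₀ hR0.le h.le 2
      nlinarith [sq_nonneg t]
    have h3 : c * R ^ 2 * t ≤ t ^ 4 * (c / R) := by
      rw [mul_div_assoc', le_div_iff₀ hR0]
      have h4 : R ^ 3 ≤ t ^ 3 := pow_le_pow_left₀ hR0.le h.le 3
      have h5 : c * t * R ^ 3 ≤ c * t * t ^ 3 := mul_le_mul_of_nonneg_left h4 (by positivity)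
      nlinarith
    have h6 : 0 ≤ R * y := by positivity
    nlinarith

theorem not_KClosed {n : ℕ} (hn : 4 ≤ n) (r : ℝ≥0∞) (hr1 : 1 ≤ r) (hr : r ≠ ⊤) :
    ¬ KClosed n r := by
  rintro ⟨C, hC⟩
  obtain ⟨q, hq⟩ : ∃ q : ℕ, r.toReal ≤ q := exists_nat_ge _
  have hrq : r ≤ (q : ℝ≥0∞) := by
    rw [← ENNReal.ofReal_toReal hr]
    calc ENNReal.ofReal r.toReal ≤ ENNReal.ofReal q := ENNReal.ofReal_le_ofReal hq
      _ = q := by simp
  have hq1 : 1 ≤ q := by
    have : (1 : ℝ≥0∞) ≤ q := hr1.trans hrq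
    exact_mod_cast this
  set c : ℝ := (C : ℝ) + 1 with hc
  have hc1 : 1 ≤ c := by have := C.coe_nonneg; linarith
  set Kq : ℝ := 2 * q.factorial with hKq
  have hKq0 : 1 ≤ Kq := by
    have : (1 : ℝ) ≤ q.factorial := by exact_mod_cast Nat.succ_le_of_lt (Nat.factorial_pos q)
    linarith
  set R : ℝ := 4 * (c * Kq + 4 + 4 * c) with hR
  have hR1 : 1 ≤ R := by nlinarith
  have hR0 : 0 < R := by linarith
  obtain ⟨p, hp, F, hF, hFp, hp2, hpm, hF1⟩ := exists_flat hn (q + 2) (1 / (4 * c * R ^ 2))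
    (by positivity)
  have hp4 : ∫ x, ‖p x‖ ^ 4 ∂haar n ≤ 4 := by
    have := hpm 2 (by omega)
    norm_num at this
    linarith
  set S : Set (Tor n) := {x | R ^ 2 < ‖p x‖} with hS
  have hSm : MeasurableSet S := measurableSet_lt measurable_const p.continuous.norm.measurable
  have hpLr : MemLp p r (haar n) := by
    refine MemLp.of_bound p.continuous.aestronglyMeasurable ‖p‖
      (Filter.Eventually.of_forall fun x => p.norm_coe_le_norm x)
  have hpLt : MemLp p ⊤ (haar n) := by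
    refine MemLp.of_bound p.continuous.aestronglyMeasurable ‖p‖
      (Filter.Eventually.of_forall fun x => p.norm_coe_le_norm x)
  obtain ⟨g', h', hg', hh', hgA, hhA, hsum, hgn, hhn⟩ := hC (S.indicator p) (Sᶜ.indicator p)
    (hpLr.indicator hSm) (hpLt.indicator hSm.compl) (by
      rw [Set.indicator_self_add_compl]
      intro k hk
      exact fc_of_mem_H hp hk)
  rw [Set.indicator_self_add_compl] at hsum
  -- norm of `g`
  have hgr : eLpNorm (S.indicator p) r (haar n) ≤ ENNReal.ofReal (Kq / R ^ 2) := by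
    set φ : Tor n → ℝ := fun x => ‖p x‖ ^ 2 / R ^ 2 with hφ
    have hφc : Continuous φ := by fun_prop
    have hφ0 : ∀ x, 0 ≤ φ x := fun x => by positivity
    have h1 : eLpNorm (S.indicator p) r (haar n) ≤ eLpNorm φ r (haar n) := by
      refine eLpNorm_mono_real fun x => ?_
      by_cases hx : x ∈ S
      · rw [Set.indicator_of_mem hx]
        have hx' : R ^ 2 < ‖p x‖ := hx
        simp only [hφ]
        rw [le_div_iff₀ (by positivity)]
        nlinarith [norm_nonneg (p x)]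
      · rw [Set.indicator_of_notMem hx, norm_zero]; exact hφ0 x
    have h2 : eLpNorm φ r (haar n) ≤ eLpNorm φ q (haar n) :=
      eLpNorm_le_eLpNorm_of_exponent_le hrq hφc.aestronglyMeasurable
    have hq0 : (q : ℝ≥0∞) ≠ 0 := by
      have : q ≠ 0 := by omega
      exact_mod_cast this
    have hφm : MemLp φ q (haar n) := by
      refine MemLp.of_bound hφc.aestronglyMeasurable (‖p‖ ^ 2 / R ^ 2)
        (Filter.Eventually.of_forall fun x => ?_)
      rw [Real.norm_eq_abs, abs_of_nonneg (hφ0 x)]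
      simp only [hφ]
      gcongr
      exact p.norm_coe_le_norm x
    have h3 := MemLp.eLpNorm_eq_integral_rpow_norm hq0 (ENNReal.natCast_ne_top q) hφm
    refine h1.trans (h2.trans ?_)
    rw [h3]
    refine ENNReal.ofReal_le_ofReal ?_
    rw [ENNReal.toReal_natCast]
    have h4 : ∫ x, ‖φ x‖ ^ (q : ℝ) ∂haar n ≤ (Kq / R ^ 2) ^ (q : ℝ) := by
      have h5 : ∀ x, ‖φ x‖ ^ (q : ℝ) = ((R ^ 2) ^ q)⁻¹ * ‖p x‖ ^ (2 * q) := by
        intro x
        rw [Real.rpow_natCast, Real.norm_eq_abs, abs_of_nonneg (hφ0 x)]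
        simp only [hφ]
        rw [div_pow, pow_mul]; ring
      simp_rw [h5]
      rw [integral_const_mul, Real.rpow_natCast, div_pow, div_eq_inv_mul]
      refine mul_le_mul_of_nonneg_left ?_ (by positivity)
      refine (hpm q (by omega)).trans ?_
      rw [← hKq]
      exact le_self_pow₀ hKq0 (by omega)
    have h6 : (0 : ℝ) ≤ Kq / R ^ 2 := by positivity
    calc (∫ x, ‖φ x‖ ^ (q : ℝ) ∂haar n) ^ (q : ℝ)⁻¹ ≤ ((Kq / R ^ 2) ^ (q : ℝ)) ^ (q : ℝ)⁻¹ := by
          refine Real.rpow_le_rpow ?_ h4 (by positivity)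
          exact integral_nonneg fun x => by positivity
      _ = Kq / R ^ 2 := by
          rw [← Real.rpow_mul h6, mul_inv_cancel₀ (by
            have : (0 : ℝ) < q := by exact_mod_cast hq1
            exact this.ne'), Real.rpow_one]
  have hhr : eLpNorm (Sᶜ.indicator p) ⊤ (haar n) ≤ ENNReal.ofReal (R ^ 2) := by
    rw [eLpNorm_exponent_top]
    refine eLpNormEssSup_le_of_ae_bound (Filter.Eventually.of_forall fun x => ?_)
    by_cases hx : x ∈ Sᶜ
    · rw [Set.indicator_of_mem hx]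
      have hx' : ¬ (R ^ 2 < ‖p x‖) := hx
      exact not_lt.1 hx'
    · rw [Set.indicator_of_notMem hx, norm_zero]; positivity
  have hCc : (C : ℝ) ≤ c := by linarith
  have hg1 : ∫ x, ‖g' x‖ ∂haar n ≤ c * (Kq / R ^ 2) := by
    rw [integral_norm_eq_lintegral_enorm hg'.1, ← eLpNorm_one_eq_lintegral_enorm]
    have h1 : eLpNorm g' 1 (haar n) ≤ C * ENNReal.ofReal (Kq / R ^ 2) :=
      (eLpNorm_le_eLpNorm_of_exponent_le hr1 hg'.1).trans
        (hgn.trans (mul_le_mul_of_nonneg_left hgr zero_le))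
    have h2 : (C * ENNReal.ofReal (Kq / R ^ 2)).toReal = C * (Kq / R ^ 2) := by
      rw [ENNReal.toReal_mul, ENNReal.coe_toReal, ENNReal.toReal_ofReal (by positivity)]
    have h3 := ENNReal.toReal_mono (by
      exact ENNReal.mul_ne_top ENNReal.coe_ne_top ENNReal.ofReal_ne_top) h1
    rw [h2] at h3
    exact h3.trans (mul_le_mul_of_nonneg_right hCc (by positivity))
  have hh1 : ∀ᵐ x ∂haar n, ‖h' x‖ ≤ c * R ^ 2 := by
    have h1 : eLpNorm h' ⊤ (haar n) ≤ C * ENNReal.ofReal (R ^ 2) :=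
      hhn.trans (mul_le_mul_of_nonneg_left hhr zero_le)
    rw [eLpNorm_exponent_top] at h1
    have h2 : (C * ENNReal.ofReal (R ^ 2)).toReal = C * R ^ 2 := by
      rw [ENNReal.toReal_mul, ENNReal.coe_toReal, ENNReal.toReal_ofReal (by positivity)]
    filter_upwards [enorm_ae_le_eLpNormEssSup h' (haar n)] with x hx
    have h3 := ENNReal.toReal_mono (by
      exact ENNReal.mul_ne_top ENNReal.coe_ne_top ENNReal.ofReal_ne_top) (hx.trans h1)
    rw [h2, toReal_enorm] at h3
    exact h3.trans (mul_le_mul_of_nonneg_right hCc (by positivity))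
  have hg'i : Integrable g' (haar n) := hg'.integrable hr1
  have hh'i : Integrable h' (haar n) := hh'.integrable le_top
  have e1 : ∫ x, g' x * star (p x) ∂haar n + ∫ x, h' x * star (p x) ∂haar n = 1 := by
    rw [← integral_add (int_mul_cont hg'i p) (int_mul_cont hh'i p)]
    have h1 : ∫ x, (g' x * star (p x) + h' x * star (p x)) ∂haar n =
        ∫ x, ((‖p x‖ ^ 2 : ℝ) : ℂ) ∂haar n := by
      refine integral_congr_ae ?_
      filter_upwards [hsum] with x hx
      have hx' : g' x + h' x = p x := hx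
      rw [← add_mul, hx']
      have := mul_star_apply p x
      rwa [ContinuousMap.mul_apply, ContinuousMap.star_apply] at this
    rw [h1]
    have h2 : ∫ x, ((‖p x‖ ^ 2 : ℝ) : ℂ) ∂haar n = ((∫ x, ‖p x‖ ^ 2 ∂haar n : ℝ) : ℂ) :=
      integral_ofReal
    rw [h2, hp2]; simp
  have e2 : ‖∫ x, h' x * star (p x) ∂haar n‖ ≤ 1 / 4 := by
    refine (pairing hh' hhA hFp hh1).trans ?_
    have hc0 : 0 < c := by linarith
    calc c * R ^ 2 * ∫ x, ‖F x‖ ∂haar n ≤ c * R ^ 2 * (1 / (4 * c * R ^ 2)) :=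
          mul_le_mul_of_nonneg_left hF1 (by positivity)
      _ = 1 / 4 := by field_simp
  have e3 : ‖∫ x, g' x * star (p x) ∂haar n‖ ≤ 1 / 4 := by
    refine (norm_integral_le_integral_norm _).trans ?_
    have hp4i : Integrable (fun x : Tor n => ‖p x‖ ^ 4) (haar n) := cont_int (by fun_prop)
    have i2 : Integrable (fun x => ‖p x‖ ^ 4 * (1 / R ^ 2) + ‖p x‖ ^ 4 * (c / R)) (haar n) :=
      (hp4i.mul_const _).add (hp4i.mul_const _)
    have h1 : ∫ x, ‖g' x * star (p x)‖ ∂haar n ≤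
        ∫ x, (R * ‖g' x‖ + (‖p x‖ ^ 4 * (1 / R ^ 2) + ‖p x‖ ^ 4 * (c / R))) ∂haar n := by
      refine integral_mono_ae (int_mul_cont hg'i p).norm ((hg'i.norm.const_mul R).add i2) ?_
      filter_upwards [hsum, hh1] with x hx hx1
      have hx' : g' x + h' x = p x := hx
      rw [norm_mul, norm_star]
      refine young_aux R c _ _ hR1 (by linarith) (norm_nonneg _) (norm_nonneg _) ?_
      have h2 : g' x = p x - h' x := by rw [← hx']; ring
      rw [h2]
      exact (norm_sub_le _ _).trans (by linarith)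
    refine h1.trans ?_
    rw [integral_add (hg'i.norm.const_mul R) i2, integral_const_mul,
      integral_add (hp4i.mul_const _) (hp4i.mul_const _), integral_mul_const, integral_mul_const]
    have hc0 : 0 < c := by linarith
    have h2 : R * ∫ x, ‖g' x‖ ∂haar n ≤ c * Kq / R := by
      calc R * ∫ x, ‖g' x‖ ∂haar n ≤ R * (c * (Kq / R ^ 2)) :=
            mul_le_mul_of_nonneg_left hg1 hR0.le
        _ = c * Kq / R := by field_simp
    have h3 : (∫ x, ‖p x‖ ^ 4 ∂haar n) * (1 / R ^ 2) ≤ 4 / R := by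
      calc (∫ x, ‖p x‖ ^ 4 ∂haar n) * (1 / R ^ 2) ≤ 4 * (1 / R ^ 2) :=
            mul_le_mul_of_nonneg_right hp4 (by positivity)
        _ ≤ 4 * (1 / R) := by
            refine mul_le_mul_of_nonneg_left ?_ (by norm_num)
            exact one_div_le_one_div_of_le hR0 (by nlinarith)
        _ = 4 / R := by ring
    have h4 : (∫ x, ‖p x‖ ^ 4 ∂haar n) * (c / R) ≤ 4 * c / R := by
      calc (∫ x, ‖p x‖ ^ 4 ∂haar n) * (c / R) ≤ 4 * (c / R) :=
            mul_le_mul_of_nonneg_right hp4 (by positivity)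
        _ = 4 * c / R := by ring
    calc R * ∫ x, ‖g' x‖ ∂haar n + ((∫ x, ‖p x‖ ^ 4 ∂haar n) * (1 / R ^ 2) +
          (∫ x, ‖p x‖ ^ 4 ∂haar n) * (c / R)) ≤ c * Kq / R + (4 / R + 4 * c / R) :=
          add_le_add h2 (add_le_add h3 h4)
      _ = (c * Kq + 4 + 4 * c) / R := by ring
      _ = 1 / 4 := by
          rw [hR, div_eq_div_iff (by positivity) (by norm_num)]; ring
  have e4 : (1 : ℝ) ≤ 1 / 4 + 1 / 4 := by
    calc (1 : ℝ) = ‖(1 : ℂ)‖ := by simp
      _ = ‖∫ x, g' x * star (p x) ∂haar n + ∫ x, h' x * star (p x) ∂haar n‖ := by rw [e1]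
      _ ≤ _ := (norm_add_le _ _).trans (add_le_add e3 e2)
  norm_num at e4

end

end MP_c03b66_an
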